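import Mathlib

/-!
# MP_a1cdeb_nt, Q1: negative answer

The elliptic curve `E : y² = x³ - 1026x² + x` over `ℚ` has positive rank, and for NO prime `p` are
the rational points `E(ℚ)` dense in `E(ℚ_p)`.

Idea.  The `x`-coordinate of every rational point `≠ (0,0)` is a square (2-isogeny descent).
* `p ≠ 2, 257`: a count of points on a conic gives a point of `E(ℚ_p)` whose `x` is a nonsquare unit.
* `p = 2, 257`: write `x = s²` and `w = 2x - 1026 + 2y/s`; for rational points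
  `w ∈ ⟨-1, 2, 257⟩ ℚ^{*2}`, but `E(ℚ_p)` contains a point with `w = 5`, and `5` is not in
  `⟨-1, 2, 257⟩ ℚ_p^{*2}`.
-/

set_option autoImplicit false

namespace Pool.Agent.Results.MP_a1cdeb_nt.NowhereDense

theorem x_square (x y : ℚ) (h : y ^ 2 = x ^ 3 - 1026 * x ^ 2 + x) (hx : x ≠ 0) :
    ∃ s : ℚ, x = s ^ 2 := by
  have hxpos : 0 < x := by
    by_contra hneg
    have hlt : x < 0 := lt_of_le_of_ne (not_lt.mp hneg) hx
    nlinarith [sq_nonneg y, sq_nonneg x, mul_pos (neg_pos.mpr hlt) (sq_nonneg x |>.lt_of_ne' (by positivity))]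
  set m : ℤ := x.num with hm
  set n : ℤ := (x.den : ℤ) with hn
  have hn0 : (n : ℚ) ≠ 0 := by simp [hn, x.den_ne_zero]
  have hxmn : x = (m : ℚ) / (n : ℚ) := by rw [hm, hn]; exact_mod_cast (Rat.num_div_den x).symm
  have hmpos : 0 < m := Rat.num_pos.mpr hxpos
  have hnpos : 0 < n := by rw [hn]; exact_mod_cast x.den_pos
  have hcop : IsCoprime m n := by
    rw [hm, hn]
    exact Int.isCoprime_iff_nat_coprime.mpr (by simpa using x.reduced)
  have hK : (((m * n * (m ^ 2 - 1026 * (m * n) + n ^ 2) : ℤ)) : ℚ) = (y * (n : ℚ) ^ 2) * (y * (n : ℚ) ^ 2) := by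
    have : y ^ 2 * (n : ℚ) ^ 4 = ((m : ℚ) / n) ^ 3 * n ^ 4 - 1026 * ((m : ℚ) / n) ^ 2 * n ^ 4 + (m : ℚ) / n * n ^ 4 := by
      rw [← hxmn, h]; ring
    push_cast
    have e : (y * (n : ℚ) ^ 2) * (y * (n : ℚ) ^ 2) = y ^ 2 * (n : ℚ) ^ 4 := by ring
    rw [e, this]
    field_simp
  have hsq : IsSquare (((m * n * (m ^ 2 - 1026 * (m * n) + n ^ 2) : ℤ)) : ℚ) := ⟨_, hK⟩
  rw [Rat.isSquare_intCast_iff] at hsq
  obtain ⟨z, hz⟩ := hsq
  have hcop2 : IsCoprime (m * n) (m ^ 2 - 1026 * (m * n) + n ^ 2) := by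
    have h1 : IsCoprime (m * n) (m ^ 2 + n ^ 2) := by
      apply IsCoprime.mul_left
      · have : IsCoprime m (n ^ 2) := hcop.pow_right
        have h2 : IsCoprime m (n ^ 2 + m * m) := this.add_mul_left_right m
        convert h2 using 1; ring
      · have : IsCoprime n (m ^ 2) := hcop.symm.pow_right
        have h2 : IsCoprime n (m ^ 2 + n * n) := this.add_mul_left_right n
        convert h2 using 1; ring
    have h3 : IsCoprime (m * n) ((m ^ 2 + n ^ 2) + (m * n) * (-1026)) := h1.add_mul_left_right (-1026)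
    convert h3 using 1; ring
  obtain ⟨a, ha⟩ := Int.sq_of_isCoprime hcop2 (c := z) (by rw [hz]; ring)
  have hapos : m * n = a ^ 2 := by
    rcases ha with ha | ha
    · exact ha
    · exfalso
      have : 0 < m * n := mul_pos hmpos hnpos
      nlinarith [sq_nonneg a]
  refine ⟨(a : ℚ) / n, ?_⟩
  rw [hxmn, div_pow]
  have : (a : ℚ) ^ 2 = m * n := by exact_mod_cast hapos.symm
  rw [this]
  field_simp

theorem w_class (w t : ℚ) (hw0 : w ≠ 0)
    (h : w * (w ^ 2 + 2052 * w + 1052672) = t ^ 2) :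
    ∃ ε : ℤ, (ε = 1 ∨ ε = -1 ∨ ε = 2 ∨ ε = -2 ∨ ε = 257 ∨ ε = -257 ∨ ε = 514 ∨ ε = -514) ∧
      ∃ r : ℚ, (ε : ℚ) * w = r ^ 2 := by
  set m : ℤ := w.num with hm
  set n : ℤ := (w.den : ℤ) with hn
  have hn0 : (n : ℚ) ≠ 0 := by simp [hn, w.den_ne_zero]
  have hwmn : w = (m : ℚ) / (n : ℚ) := by rw [hm, hn]; exact_mod_cast (Rat.num_div_den w).symm
  have hm0 : m ≠ 0 := by rw [hm]; exact Rat.num_ne_zero.mpr hw0
  have hnpos : 0 < n := by rw [hn]; exact_mod_cast w.den_pos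
  have hcop : IsCoprime m n := by
    rw [hm, hn]
    exact Int.isCoprime_iff_nat_coprime.mpr (by simpa using w.reduced)
  have hK : (((m * n * (m ^ 2 + 2052 * (m * n) + 1052672 * n ^ 2) : ℤ)) : ℚ) = (t * (n : ℚ) ^ 2) * (t * (n : ℚ) ^ 2) := by
    have : t ^ 2 * (n : ℚ) ^ 4 = ((m : ℚ) / n) * (((m : ℚ) / n) ^ 2 + 2052 * ((m : ℚ) / n) + 1052672) * n ^ 4 := by
      rw [← hwmn, h]
    push_cast
    have e : (t * (n : ℚ) ^ 2) * (t * (n : ℚ) ^ 2) = t ^ 2 * (n : ℚ) ^ 4 := by ring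
    rw [e, this]
    field_simp
  have hsq : IsSquare (((m * n * (m ^ 2 + 2052 * (m * n) + 1052672 * n ^ 2) : ℤ)) : ℚ) := ⟨_, hK⟩
  rw [Rat.isSquare_intCast_iff] at hsq
  obtain ⟨z, hz⟩ := hsq
  set N : ℕ := (m * n).natAbs with hN
  set K : ℕ := (m ^ 2 + 2052 * (m * n) + 1052672 * n ^ 2).natAbs with hKdef
  have hNK : N * K = z.natAbs ^ 2 := by
    rw [hN, hKdef, ← Int.natAbs_mul, hz, Int.natAbs_mul]; ring
  have hN0 : N ≠ 0 := by
    rw [hN]; exact Int.natAbs_ne_zero.mpr (mul_ne_zero hm0 hnpos.ne')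
  obtain ⟨a, b, hab, ha⟩ := Nat.sq_mul_squarefree N
  have hb0 : b ≠ 0 := by rintro rfl; apply hN0; rw [← hab]; simp
  have hprime : ∀ q ∈ a.primeFactors, q ∈ ({2, 257} : Finset ℕ) := by
    intro q hq
    have hqp := Nat.prime_of_mem_primeFactors hq
    have hqa := Nat.dvd_of_mem_primeFactors hq
    by_contra hnot
    have hq2 : q ≠ 2 := by rintro rfl; simp at hnot
    have hq257 : q ≠ 257 := by rintro rfl; simp at hnot
    -- q divides N = |m n|, not K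
    have hqN : q ∣ N := by rw [← hab]; exact Dvd.dvd.mul_left hqa _
    have hqK : ¬ q ∣ K := by
      intro hqK
      have hqKi : (q : ℤ) ∣ (m ^ 2 + 2052 * (m * n) + 1052672 * n ^ 2) := by
        rw [hKdef] at hqK; exact Int.natCast_dvd.mpr hqK
      have hqmn : (q : ℤ) ∣ m * n := by
        rw [hN] at hqN; exact Int.natCast_dvd.mpr hqN
      have hqpi : Prime (q : ℤ) := Nat.prime_iff_prime_int.mp hqp
      rcases hqpi.dvd_or_dvd hqmn with h1 | h1
      · have h2 : (q : ℤ) ∣ 1052672 * n ^ 2 := by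
          have : 1052672 * n ^ 2 = (m ^ 2 + 2052 * (m * n) + 1052672 * n ^ 2) - m * (m + 2052 * n) := by ring
          rw [this]
          exact dvd_sub hqKi (Dvd.dvd.mul_right h1 _)
        rcases hqpi.dvd_or_dvd h2 with h3 | h3
        · have h4 : q ∣ 1052672 := by exact_mod_cast h3
          have h5 : (1052672 : ℕ) = 2 ^ 12 * 257 := by norm_num
          rw [h5] at h4
          rcases hqp.dvd_mul.mp h4 with h6 | h6
          · exact hq2 ((Nat.prime_dvd_prime_iff_eq hqp Nat.prime_two).mp (hqp.dvd_of_dvd_pow h6))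
          · exact hq257 ((Nat.prime_dvd_prime_iff_eq hqp (by norm_num)).mp h6)
        · have h4 := hqpi.dvd_of_dvd_pow h3
          have := hcop.isUnit_of_dvd' h1 h4
          exact hqpi.not_isUnit this
      · have h2 : (q : ℤ) ∣ m ^ 2 := by
          have : m ^ 2 = (m ^ 2 + 2052 * (m * n) + 1052672 * n ^ 2) - n * (2052 * m + 1052672 * n) := by ring
          rw [this]
          exact dvd_sub hqKi (Dvd.dvd.mul_right h1 _)
        have h4 := hqpi.dvd_of_dvd_pow h2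
        have := hcop.isUnit_of_dvd' h4 h1
        exact hqpi.not_isUnit this
    -- b^2 a K = z^2
    have h1 : b ^ 2 * (a * K) = z.natAbs ^ 2 := by rw [← hNK, ← hab]; ring
    have h2 : b ∣ z.natAbs := by
      have : b ^ 2 ∣ z.natAbs ^ 2 := ⟨a * K, h1.symm⟩
      exact (Nat.pow_dvd_pow_iff two_ne_zero).mp this
    obtain ⟨z1, hz1⟩ := h2
    have h3 : a * K = z1 ^ 2 := by
      rw [hz1, mul_pow] at h1
      exact Nat.eq_of_mul_eq_mul_left (by positivity) h1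
    have h4 : q ∣ z1 := by
      apply hqp.dvd_of_dvd_pow (n := 2)
      rw [← h3]; exact Dvd.dvd.mul_right hqa _
    have h5 : q ^ 2 ∣ a * K := by rw [h3]; exact pow_dvd_pow_of_dvd h4 2
    have h6 : q ^ 2 ∣ a := by
      have : Nat.Coprime (q ^ 2) K := Nat.Coprime.pow_left 2 ((Nat.Prime.coprime_iff_not_dvd hqp).mpr hqK)
      exact this.dvd_of_dvd_mul_right h5
    have h7 := ha q (by rw [← pow_two]; exact h6)
    exact hqp.one_lt.ne' (Nat.isUnit_iff.mp h7)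
  have ha514 : a ∣ 514 := by
    have h1 := Nat.prod_primeFactors_of_squarefree ha
    have h2 : ∏ p ∈ a.primeFactors, p ∣ ∏ p ∈ ({2, 257} : Finset ℕ), p :=
      Finset.prod_dvd_prod_of_subset _ _ _ hprime
    rw [h1] at h2
    simpa using h2
  have hacases : a = 1 ∨ a = 2 ∨ a = 257 ∨ a = 514 := by
    have : a ∈ Nat.divisors 514 := Nat.mem_divisors.mpr ⟨ha514, by norm_num⟩
    have h2 : Nat.divisors 514 = {1, 2, 257, 514} := by decide +kernel
    rw [h2] at this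
    simpa using this
  -- sign
  have hmn : m * n = (b : ℤ) ^ 2 * a ∨ m * n = -((b : ℤ) ^ 2 * a) := by
    have : (N : ℤ) = (b : ℤ) ^ 2 * a := by exact_mod_cast hab.symm
    rcases Int.natAbs_eq (m * n) with h1 | h1
    · left; rw [h1, ← hN, this]
    · right; rw [h1, ← hN, this]
  have key : ∀ σ : ℤ, σ ^ 2 = 1 → m * n = σ * ((b : ℤ) ^ 2 * a) → ((σ * a : ℤ) : ℚ) * w = ((a : ℚ) * b / n) ^ 2 := by
    intro σ hσ h1
    have h2 : (m : ℚ) * n = σ * ((b : ℚ) ^ 2 * a) := by exact_mod_cast h1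
    have h3 : w = (σ * ((b : ℚ) ^ 2 * a)) / (n : ℚ) ^ 2 := by
      rw [← h2, hwmn]; field_simp
    have hσ' : (σ : ℚ) ^ 2 = 1 := by exact_mod_cast hσ
    rw [h3]
    push_cast
    have : (σ : ℚ) * a * (σ * ((b : ℚ) ^ 2 * a) / (n : ℚ) ^ 2) = (σ : ℚ) ^ 2 * ((a : ℚ) * b / n) ^ 2 := by ring
    rw [this, hσ', one_mul]
  rcases hmn with h1 | h1
  · refine ⟨(1 : ℤ) * a, ?_, ⟨_, key 1 (by norm_num) (by rw [h1]; ring)⟩⟩
    rcases hacases with rfl | rfl | rfl | rfl <;> norm_num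
  · refine ⟨(-1 : ℤ) * a, ?_, ⟨_, key (-1) (by norm_num) (by rw [h1]; ring)⟩⟩
    rcases hacases with rfl | rfl | rfl | rfl <;> norm_num

theorem isSquare_of_close {p : ℕ} [Fact p.Prime] (a c : ℤ_[p]) (h : ‖a ^ 2 - c‖ < ‖2 * a‖ ^ 2) :
    ∃ z : ℤ_[p], z ^ 2 = c := by
  have := hensels_lemma (p := p) (R := ℤ_[p]) (F := Polynomial.X ^ 2 - Polynomial.C c) (a := a)
    (by simpa [Polynomial.aeval_def, one_add_one_eq_two] using h)
  obtain ⟨z, hz, -⟩ := this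
  refine ⟨z, ?_⟩
  have : z ^ 2 - c = 0 := by simpa [Polynomial.aeval_def] using hz
  exact sub_eq_zero.mp this

theorem root_of_close {p : ℕ} [Fact p.Prime] (a : ℤ_[p])
    (h : ‖a ^ 2 - 1026 * a + 1‖ < ‖2 * a - 1026‖ ^ 2) :
    ∃ z : ℤ_[p], z ^ 2 - 1026 * z + 1 = 0 ∧ ‖z - a‖ < ‖2 * a - 1026‖ := by
  have := hensels_lemma (p := p) (R := ℤ_[p])
    (F := Polynomial.X ^ 2 - Polynomial.C 1026 * Polynomial.X + Polynomial.C 1) (a := a)
    (by simpa [Polynomial.aeval_def, one_add_one_eq_two] using h)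
  obtain ⟨z, hz, hz2, -⟩ := this
  refine ⟨z, by simpa [Polynomial.aeval_def] using hz, by simpa [Polynomial.aeval_def, one_add_one_eq_two] using hz2⟩

theorem mul_nonsq {p : ℕ} [Fact p.Prime] (hp : p ≠ 2) (a b : ZMod p) (ha : ¬ IsSquare a) (hb : ¬ IsSquare b) :
    IsSquare (a * b) := by
  have hF : ringChar (ZMod p) ≠ 2 := by rw [ZMod.ringChar_zmod_n]; exact hp
  have ha0 : a ≠ 0 := by rintro rfl; exact ha (IsSquare.zero)
  have hb0 : b ≠ 0 := by rintro rfl; exact hb (IsSquare.zero)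
  have h1 := (quadraticChar_neg_one_iff_not_isSquare).mpr ha
  have h2 := (quadraticChar_neg_one_iff_not_isSquare).mpr hb
  have h3 : quadraticChar (ZMod p) (a * b) = 1 := by rw [map_mul, h1, h2]; norm_num
  exact (quadraticChar_one_iff_isSquare (mul_ne_zero ha0 hb0)).mp h3

theorem exists_nonsq {p : ℕ} [Fact p.Prime] (hp : p ≠ 2) (hp' : p ≠ 257) :
    ∃ x : ZMod p, ¬ IsSquare x ∧
      (x ^ 2 - 1026 * x + 1 = 0 ∨ (x ^ 2 - 1026 * x + 1 ≠ 0 ∧ IsSquare (x * (x ^ 2 - 1026 * x + 1)))) := by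
  classical
  have hF : ringChar (ZMod p) ≠ 2 := by rw [ZMod.ringChar_zmod_n]; exact hp
  have hpp : p.Prime := Fact.out
  have h2 : (2 : ZMod p) ≠ 0 := Ring.two_ne_zero hF
  have h257 : (257 : ZMod p) ≠ 0 := by
    intro h
    have : ((257 : ℕ) : ZMod p) = 0 := by exact_mod_cast h
    rw [ZMod.natCast_eq_zero_iff] at this
    exact hp' ((Nat.prime_dvd_prime_iff_eq hpp (by norm_num)).mp this)
  have hc : (263168 : ZMod p) ≠ 0 := by
    have : (263168 : ZMod p) = 2 ^ 10 * 257 := by norm_num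
    rw [this]; exact mul_ne_zero (pow_ne_zero _ h2) h257
  obtain ⟨ν, hν⟩ := FiniteField.exists_nonsquare hF
  have hν0 : ν ≠ 0 := by rintro rfl; exact hν IsSquare.zero
  by_contra hcon
  push Not at hcon
  -- for every nonsquare x, x^2-1026x+1 is a nonzero square
  have hall : ∀ x : ZMod p, ¬ IsSquare x → (x ^ 2 - 1026 * x + 1 ≠ 0 ∧ IsSquare (x ^ 2 - 1026 * x + 1)) := by
    intro x hx
    obtain ⟨h3, h4⟩ := hcon x hx
    refine ⟨h3, ?_⟩
    by_contra h5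
    exact h4 h3 (mul_nonsq hp x _ hx h5)
  have hns : ∀ t : ZMod p, t ≠ 0 → ¬ IsSquare (ν * t ^ 2) := by
    rintro t ht ⟨r, hr⟩
    apply hν
    refine ⟨r / t, ?_⟩
    field_simp
    rw [hr]; ring
  have hr : ∀ x : ZMod p, ∃ r : ZMod p, (∃ t : ZMod p, t ≠ 0 ∧ x = ν * t ^ 2) → r ≠ 0 ∧ r ^ 2 * x = ν * (x ^ 2 - 1026 * x + 1) := by
    intro x
    by_cases hx : ∃ t : ZMod p, t ≠ 0 ∧ x = ν * t ^ 2
    · obtain ⟨t, ht, rfl⟩ := hx
      obtain ⟨h3, z, hz⟩ := hall _ (hns t ht)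
      refine ⟨z / t, fun _ => ⟨?_, ?_⟩⟩
      · apply div_ne_zero _ ht
        rintro rfl
        apply h3; rw [hz]; ring
      · rw [hz]; field_simp
    · exact ⟨0, fun h => absurd h hx⟩
  choose r hrr using hr
  set Φ : ZMod p → ZMod p := fun t => if t = 0 then 0 else t * r (ν * t ^ 2) + ν * t ^ 2 - 513 with hΦ
  have hkey : ∀ t : ZMod p, t ≠ 0 → Φ t * (t * r (ν * t ^ 2) - (ν * t ^ 2 - 513)) = -263168 := by
    intro t ht
    obtain ⟨h3, h4⟩ := hrr (ν * t ^ 2) ⟨t, ht, rfl⟩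
    have h5 : r (ν * t ^ 2) ^ 2 * t ^ 2 = (ν * t ^ 2) ^ 2 - 1026 * (ν * t ^ 2) + 1 := by
      have : ν * (r (ν * t ^ 2) ^ 2 * t ^ 2) = ν * ((ν * t ^ 2) ^ 2 - 1026 * (ν * t ^ 2) + 1) := by
        rw [← h4]; ring
      exact mul_left_cancel₀ hν0 this
    simp only [hΦ, ht, if_false]
    have : (t * r (ν * t ^ 2) + ν * t ^ 2 - 513) * (t * r (ν * t ^ 2) - (ν * t ^ 2 - 513))
        = r (ν * t ^ 2) ^ 2 * t ^ 2 - (ν * t ^ 2 - 513) ^ 2 := by ring
    rw [this, h5]; ring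
  have hne : ∀ t : ZMod p, t ≠ 0 → Φ t ≠ 0 := by
    intro t ht h0
    have := hkey t ht
    rw [h0, zero_mul] at this
    exact hc (neg_eq_zero.mp this.symm)
  have hx : ∀ t : ZMod p, t ≠ 0 → 2 * (ν * t ^ 2) * Φ t = Φ t ^ 2 + 1026 * Φ t + 263168 := by
    intro t ht
    have h3 := hkey t ht
    have h4 : Φ t = t * r (ν * t ^ 2) + ν * t ^ 2 - 513 := by simp only [hΦ, ht, if_false]
    have h5 : t * r (ν * t ^ 2) = Φ t - ν * t ^ 2 + 513 := by rw [h4]; ring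
    rw [h5] at h3
    linear_combination (-1 : ZMod p) * h3
  have hinj : Function.Injective Φ := by
    intro t t' htt
    by_cases ht : t = 0
    · by_cases ht' : t' = 0
      · rw [ht, ht']
      · exfalso
        have h0 : Φ t = 0 := by rw [ht, hΦ]; simp
        exact hne t' ht' (htt ▸ h0)
    · by_cases ht' : t' = 0
      · exfalso
        have h0 : Φ t' = 0 := by rw [ht', hΦ]; simp
        exact hne t ht (htt.trans h0)
      · have h3 := hx t ht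
        have h4 := hx t' ht'
        have h5 : ν * t ^ 2 = ν * t' ^ 2 := by
          rw [← htt, ← h3] at h4
          have h6 : (2 * Φ t) * (ν * t' ^ 2) = (2 * Φ t) * (ν * t ^ 2) := by
            linear_combination h4
          exact (mul_left_cancel₀ (mul_ne_zero h2 (hne t ht)) h6).symm
        have h7 : Φ t = t * r (ν * t ^ 2) + ν * t ^ 2 - 513 := by simp only [hΦ, ht, if_false]
        have h8 : Φ t' = t' * r (ν * t' ^ 2) + ν * t' ^ 2 - 513 := by simp only [hΦ, ht', if_false]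
        rw [h7, h8, ← h5] at htt
        have h9 : t * r (ν * t ^ 2) = t' * r (ν * t ^ 2) := by linear_combination htt
        exact mul_right_cancel₀ (hrr (ν * t ^ 2) ⟨t, ht, rfl⟩).1 h9
  have hsurj : Function.Surjective Φ := Finite.surjective_of_injective hinj
  obtain ⟨t, ht⟩ := hsurj (-512)
  have h512 : (-512 : ZMod p) ≠ 0 := by
    have : (-512 : ZMod p) = -(2 ^ 9) := by norm_num
    rw [this]; exact neg_ne_zero.mpr (pow_ne_zero _ h2)
  have ht0 : t ≠ 0 := by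
    rintro rfl
    apply h512; rw [← ht, hΦ]; simp
  have h3 := hx t ht0
  rw [ht] at h3
  have h4 : 2 * (ν * t ^ 2) * (-512 : ZMod p) = 0 := by rw [h3]; norm_num
  have h5 : (ν * t ^ 2) ≠ 0 := mul_ne_zero hν0 (pow_ne_zero _ ht0)
  exact (mul_ne_zero (mul_ne_zero h2 h5) h512) h4

/-- `E(ℚ)` misses an open set of `E(ℚ_p)` around an affine point. -/
def Sep (p : ℕ) [Fact p.Prime] : Prop :=
  ∃ x0 y0 : ℚ_[p], y0 ^ 2 = x0 ^ 3 - 1026 * x0 ^ 2 + x0 ∧ ∃ ε : ℝ, 0 < ε ∧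
    ∀ x y : ℚ, y ^ 2 = x ^ 3 - 1026 * x ^ 2 + x → ‖(x : ℚ_[p]) - x0‖ < ε → ‖(y : ℚ_[p]) - y0‖ < ε → False

theorem norm_one_of_toZMod {p : ℕ} [Fact p.Prime] (z : ℤ_[p]) (h : PadicInt.toZMod z ≠ 0) : ‖z‖ = 1 := by
  by_contra hne
  have hlt : ‖z‖ < 1 := lt_of_le_of_ne (PadicInt.norm_le_one z) hne
  apply h
  have : z ∈ RingHom.ker (PadicInt.toZMod (p := p)) := by
    rw [PadicInt.ker_toZMod, IsLocalRing.mem_maximalIdeal]
    exact PadicInt.mem_nonunits.mpr hlt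
  exact this

theorem norm_lt_of_toZMod {p : ℕ} [Fact p.Prime] (z : ℤ_[p]) : PadicInt.toZMod z = 0 ↔ ‖z‖ < 1 := by
  rw [← RingHom.mem_ker, PadicInt.ker_toZMod, IsLocalRing.mem_maximalIdeal]
  exact PadicInt.mem_nonunits

/-- core for good primes -/
theorem sep_of_unit {p : ℕ} [Fact p.Prime] (x0 y0 : ℤ_[p])
    (h : y0 ^ 2 = x0 ^ 3 - 1026 * x0 ^ 2 + x0) (hns : ¬ IsSquare (PadicInt.toZMod x0)) : Sep p := by
  have hc : (y0 : ℚ_[p]) ^ 2 = (x0 : ℚ_[p]) ^ 3 - 1026 * (x0 : ℚ_[p]) ^ 2 + x0 := by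
    have h1 := congrArg (PadicInt.Coe.ringHom (p := p)) h
    rw [map_add, map_sub, map_mul, map_pow, map_pow, map_pow, map_ofNat] at h1
    exact h1
  refine ⟨x0, y0, hc, 1, one_pos, ?_⟩
  intro x y hxy hx _
  have hx0 : PadicInt.toZMod x0 ≠ 0 := by
    intro h0; apply hns; rw [h0]; exact IsSquare.zero
  have hn0 : ‖(x0 : ℚ_[p])‖ = 1 := by
    rw [PadicInt.padic_norm_e_of_padicInt]; exact norm_one_of_toZMod x0 hx0
  have hxne : x ≠ 0 := by
    rintro rfl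
    rw [Rat.cast_zero, zero_sub, norm_neg, hn0] at hx
    exact lt_irrefl _ hx
  obtain ⟨s, rfl⟩ := x_square x y hxy hxne
  have hns1 : ‖((s ^ 2 : ℚ) : ℚ_[p])‖ = 1 := by
    have h1 : ((s ^ 2 : ℚ) : ℚ_[p]) = (((s ^ 2 : ℚ) : ℚ_[p]) - x0) + x0 := by ring
    rw [h1, IsUltrametricDist.norm_add_eq_max_of_norm_ne_norm (by rw [hn0]; exact hx.ne), hn0]
    exact max_eq_right hx.le
  have hs1 : ‖((s : ℚ) : ℚ_[p])‖ = 1 := by
    rw [Rat.cast_pow, norm_pow] at hns1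
    exact (pow_eq_one_iff_of_nonneg (norm_nonneg _) two_ne_zero).mp hns1
  set S : ℤ_[p] := ⟨(s : ℚ_[p]), hs1.le⟩ with hS
  have h2 : PadicInt.toZMod (S ^ 2 - x0) = 0 := by
    rw [norm_lt_of_toZMod, ← PadicInt.padic_norm_e_of_padicInt]
    push_cast
    rw [hS]
    simpa using hx
  rw [map_sub, map_pow, sub_eq_zero] at h2
  exact hns ⟨PadicInt.toZMod S, by rw [← h2]; ring⟩

theorem sep_good {p : ℕ} [Fact p.Prime] (hp : p ≠ 2) (hp' : p ≠ 257) : Sep p := by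
  have hpp : p.Prime := Fact.out
  have hF : ringChar (ZMod p) ≠ 2 := by rw [ZMod.ringChar_zmod_n]; exact hp
  have h2 : (2 : ZMod p) ≠ 0 := Ring.two_ne_zero hF
  have h257 : (257 : ZMod p) ≠ 0 := by
    intro h
    have : ((257 : ℕ) : ZMod p) = 0 := by exact_mod_cast h
    rw [ZMod.natCast_eq_zero_iff] at this
    exact hp' ((Nat.prime_dvd_prime_iff_eq hpp (by norm_num)).mp this)
  obtain ⟨x, hx, hcase⟩ := exists_nonsq hp hp'
  obtain ⟨X, rfl⟩ := ZMod.ringHom_surjective (PadicInt.toZMod (p := p)) x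
  rcases hcase with h0 | ⟨hne, ⟨r, hr⟩⟩
  · -- root
    have hd : ‖2 * X - 1026‖ = 1 := by
      apply norm_one_of_toZMod
      intro h3
      rw [map_sub, map_mul, map_ofNat, map_ofNat] at h3
      have h4 : (2 * PadicInt.toZMod X - 1026) ^ 2 = 4 * (PadicInt.toZMod X ^ 2 - 1026 * PadicInt.toZMod X + 1) + 1052672 := by ring
      rw [h3, h0] at h4
      have h5 : (1052672 : ZMod p) = 2 ^ 12 * 257 := by norm_num
      have h6 : (1052672 : ZMod p) ≠ 0 := by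
        rw [h5]; exact mul_ne_zero (pow_ne_zero _ h2) h257
      apply h6
      have : (0 : ZMod p) ^ 2 = 4 * 0 + 1052672 := h4
      simpa using this.symm
    obtain ⟨z, hz, hz2⟩ := root_of_close X (by
      rw [hd, one_pow, ← norm_lt_of_toZMod]
      rw [map_add, map_sub, map_mul, map_pow, map_ofNat, map_one]; exact h0)
    rw [hd, ← norm_lt_of_toZMod, map_sub, sub_eq_zero] at hz2
    refine sep_of_unit z 0 ?_ (by rw [hz2]; exact hx)
    have : z ^ 3 - 1026 * z ^ 2 + z = z * (z ^ 2 - 1026 * z + 1) := by ring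
    rw [this, hz]; ring
  · obtain ⟨R, rfl⟩ := ZMod.ringHom_surjective (PadicInt.toZMod (p := p)) r
    have hX0 : PadicInt.toZMod X ≠ 0 := by
      intro h0; apply hx; rw [h0]; exact IsSquare.zero
    have hR : PadicInt.toZMod R ≠ 0 := by
      intro h0
      rw [h0, mul_zero] at hr
      exact mul_ne_zero hX0 hne hr
    obtain ⟨z, hz⟩ := isSquare_of_close R (X ^ 3 - 1026 * X ^ 2 + X) (by
      have h3 : ‖2 * R‖ = 1 := by
        apply norm_one_of_toZMod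
        rw [map_mul, map_ofNat]; exact mul_ne_zero h2 hR
      rw [h3, one_pow, ← norm_lt_of_toZMod]
      simp only [map_add, map_sub, map_mul, map_pow, map_ofNat]
      linear_combination (-1 : ZMod p) * hr)
    exact sep_of_unit X z hz hx

theorem sep_of_w {p : ℕ} [Fact p.Prime] (s0 y0 : ℚ_[p]) (hs0 : s0 ≠ 0)
    (hcurve : y0 ^ 2 = (s0 ^ 2) ^ 3 - 1026 * (s0 ^ 2) ^ 2 + s0 ^ 2)
    (hw : 2 * s0 ^ 2 - 1026 + 2 * y0 / s0 = 5)
    (H : ∃ η : ℝ, 0 < η ∧ ∀ ε : ℤ, (ε = 1 ∨ ε = -1 ∨ ε = 2 ∨ ε = -2 ∨ ε = 257 ∨ ε = -257 ∨ ε = 514 ∨ ε = -514) →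
      ∀ r w : ℚ_[p], ‖w - 5‖ < η → (ε : ℚ_[p]) * w ≠ r ^ 2) : Sep p := by
  obtain ⟨η, hη, H⟩ := H
  have hcont : ContinuousAt (fun q : ℚ_[p] × ℚ_[p] => 2 * q.1 ^ 2 - 1026 + 2 * q.2 / q.1) (s0, y0) := by
    have : ((s0, y0) : ℚ_[p] × ℚ_[p]).1 ≠ 0 := hs0
    fun_prop (disch := assumption)
  obtain ⟨δ, hδ, hball⟩ := Metric.continuousAt_iff.mp hcont η hη
  have hball' : ∀ s y : ℚ_[p], ‖s - s0‖ < δ → ‖y - y0‖ < δ → ‖2 * s ^ 2 - 1026 + 2 * y / s - 5‖ < η := by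
    intro s y h1 h2
    have := hball (x := (s, y)) (by
      rw [Prod.dist_eq, max_lt_iff, dist_eq_norm, dist_eq_norm]; exact ⟨h1, h2⟩)
    rw [dist_eq_norm] at this
    simpa [hw] using this
  refine ⟨s0 ^ 2, y0, hcurve, min (min δ (δ ^ 2)) (‖s0 ^ 2‖), ?_, ?_⟩
  · have : 0 < ‖s0 ^ 2‖ := norm_pos_iff.mpr (pow_ne_zero _ hs0)
    positivity
  intro x y hxy hx hy
  have hx1 : ‖(x : ℚ_[p]) - s0 ^ 2‖ < δ ^ 2 := lt_of_lt_of_le hx (le_trans (min_le_left _ _) (min_le_right _ _))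
  have hx2 : ‖(x : ℚ_[p]) - s0 ^ 2‖ < ‖s0 ^ 2‖ := lt_of_lt_of_le hx (min_le_right _ _)
  have hy1 : ‖(y : ℚ_[p]) - y0‖ < δ := lt_of_lt_of_le hy (le_trans (min_le_left _ _) (min_le_left _ _))
  have hxne : x ≠ 0 := by
    rintro rfl
    rw [Rat.cast_zero, zero_sub, norm_neg] at hx2
    exact lt_irrefl _ hx2
  obtain ⟨s', rfl⟩ := x_square x y hxy hxne
  -- choose the sign
  obtain ⟨s, hss, hs⟩ : ∃ s : ℚ, s ^ 2 = s' ^ 2 ∧ ‖(s : ℚ_[p]) - s0‖ < δ := by
    have h1 : ((s' ^ 2 : ℚ) : ℚ_[p]) - s0 ^ 2 = ((s' : ℚ_[p]) - s0) * ((s' : ℚ_[p]) + s0) := by push_cast; ring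
    rw [h1, norm_mul] at hx1
    by_cases h2 : ‖(s' : ℚ_[p]) - s0‖ < δ
    · exact ⟨s', rfl, h2⟩
    · refine ⟨-s', by ring, ?_⟩
      have h3 : ‖((-s' : ℚ) : ℚ_[p]) - s0‖ = ‖(s' : ℚ_[p]) + s0‖ := by
        rw [← norm_neg]; congr 1; push_cast; ring
      rw [h3]
      by_contra h4
      push Not at h2 h4
      have : δ ^ 2 ≤ ‖(s' : ℚ_[p]) - s0‖ * ‖(s' : ℚ_[p]) + s0‖ := by
        rw [pow_two]; exact mul_le_mul h2 h4 hδ.le (norm_nonneg _)
      exact absurd hx1 (not_lt.mpr this)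
  rw [← hss] at hxy hxne
  have hs0' : s ≠ 0 := by rintro rfl; apply hxne; ring
  set u : ℚ := y / s with hu
  have hyu : y = u * s := by rw [hu]; field_simp
  have hu2 : u ^ 2 = s ^ 4 - 1026 * s ^ 2 + 1 := by
    have h3 : s ^ 2 * u ^ 2 = s ^ 2 * (s ^ 4 - 1026 * s ^ 2 + 1) := by
      rw [hyu] at hxy; linear_combination hxy
    exact mul_left_cancel₀ (pow_ne_zero 2 hs0') h3
  set w : ℚ := 2 * s ^ 2 - 1026 + 2 * u with hwdef
  have hwq : w ^ 2 + 2052 * w + 1052672 = 4 * s ^ 2 * w := by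
    rw [hwdef]; linear_combination (4 : ℚ) * hu2
  have hw0 : w ≠ 0 := by
    intro h0
    rw [h0] at hwq
    norm_num at hwq
  obtain ⟨ε, hε, r, hr⟩ := w_class w (2 * s * w) hw0 (by rw [hwq]; ring)
  have hwc : ‖(w : ℚ_[p]) - 5‖ < η := by
    have := hball' s y hs hy1
    have h5 : (w : ℚ_[p]) = 2 * (s : ℚ_[p]) ^ 2 - 1026 + 2 * y / s := by
      rw [hwdef, hu]; push_cast; ring
    rw [h5]; exact this
  exact H ε hε r w hwc (by exact_mod_cast congrArg (fun q : ℚ => (q : ℚ_[p])) hr)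

/-- given a square root of 5314785, build the point -/
theorem sep_of_root {p : ℕ} [Fact p.Prime] (z : ℚ_[p]) (hz : z ^ 2 = 5314785)
    (H : ∃ η : ℝ, 0 < η ∧ ∀ ε : ℤ, (ε = 1 ∨ ε = -1 ∨ ε = 2 ∨ ε = -2 ∨ ε = 257 ∨ ε = -257 ∨ ε = 514 ∨ ε = -514) →
      ∀ r w : ℚ_[p], ‖w - 5‖ < η → (ε : ℚ_[p]) * w ≠ r ^ 2) : Sep p := by
  have hz0 : z ≠ 0 := by rintro rfl; norm_num at hz
  have hs : (z / 10) ^ 2 = 1062957 / 20 := by
    rw [div_pow, hz]; norm_num
  have hs0 : z / 10 ≠ 0 := div_ne_zero hz0 (by norm_num)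
  refine sep_of_w (z / 10) ((z / 10) * (1031 - 2 * (z / 10) ^ 2) / 2) hs0 ?_ ?_ H
  · have h1 : ((z / 10) * (1031 - 2 * (z / 10) ^ 2) / 2) ^ 2 = (z / 10) ^ 2 * (1031 - 2 * (z / 10) ^ 2) ^ 2 / 4 := by ring
    rw [h1, hs]; norm_num
  · have h1 : 2 * ((z / 10) * (1031 - 2 * (z / 10) ^ 2) / 2) / (z / 10) = 1031 - 2 * (z / 10) ^ 2 := by
      field_simp
    rw [h1]; ring

theorem norm_sq_le {p : ℕ} [Fact p.Prime] (r a : ℚ_[p]) (h : a = r ^ 2) (ha : ‖a‖ ≤ 1) : ‖r‖ ≤ 1 := by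
  rw [h, norm_pow] at ha
  exact (pow_le_one_iff_of_nonneg (norm_nonneg _) two_ne_zero).mp ha

instance fact257 : Fact (Nat.Prime 257) := ⟨by norm_num⟩

theorem sep_two : Sep 2 := by
  obtain ⟨z, hz⟩ := isSquare_of_close (p := 2) 1 5314785 (by
    have h1 : (1 : ℤ_[2]) ^ 2 - 5314785 = ((-5314784 : ℤ) : ℤ_[2]) := by norm_num
    have h2 : (2 : ℤ_[2]) * 1 = ((2 : ℕ) : ℤ_[2]) := by norm_num
    rw [h1, h2, PadicInt.norm_p]
    have h3 : ‖((-5314784 : ℤ) : ℤ_[2])‖ ≤ (2 : ℝ) ^ (-(5 : ℕ) : ℤ) := by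
      have := (PadicInt.norm_int_le_pow_iff_dvd (p := 2) (k := -5314784) (n := 5)).mpr (by norm_num)
      exact_mod_cast this
    refine lt_of_le_of_lt h3 ?_
    norm_num)
  refine sep_of_root (p := 2) (z : ℚ_[2]) ?_ ⟨1 / 8, by norm_num, ?_⟩
  · have h1 := congrArg (PadicInt.Coe.ringHom (p := 2)) hz
    rw [map_pow, map_ofNat] at h1
    exact h1
  intro ε hε r w hw hcon
  have hw5 : ‖(5 : ℚ_[2])‖ ≤ 1 := by
    have := Padic.norm_int_le_one (p := 2) 5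
    simpa using this
  have hw1 : ‖w‖ ≤ 1 := by
    have h1 : w = (w - 5) + 5 := by ring
    rw [h1]
    refine (Padic.nonarchimedean _ _).trans (max_le ?_ hw5)
    linarith
  have hew : ‖(ε : ℚ_[2]) * w‖ ≤ 1 := by
    rw [norm_mul]
    exact mul_le_one₀ (Padic.norm_int_le_one ε) (norm_nonneg _) hw1
  have hr1 := norm_sq_le r _ hcon hew
  set W : ℤ_[2] := ⟨w, hw1⟩ with hW
  set R : ℤ_[2] := ⟨r, hr1⟩ with hR
  have h1 : (ε : ℤ_[2]) * W = R ^ 2 := by
    apply Subtype.ext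
    push_cast
    simpa [hW, hR] using hcon
  have h2 : PadicInt.toZModPow 3 W = 5 := by
    have h3 : W - 5 ∈ Ideal.span {(2 : ℤ_[2]) ^ 3} := by
      have h4 := (PadicInt.norm_le_pow_iff_mem_span_pow (W - 5) 3).mp (by
        have : ‖W - 5‖ = ‖w - 5‖ := by
          rw [← PadicInt.padic_norm_e_of_padicInt]; rfl
        rw [this]
        refine hw.le.trans ?_
        norm_num)
      simpa using h4
    have h5 : W - 5 ∈ RingHom.ker (PadicInt.toZModPow (p := 2) 3) := by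
      rw [PadicInt.ker_toZModPow]; simpa using h3
    rw [RingHom.mem_ker, map_sub, sub_eq_zero] at h5
    rw [h5, map_ofNat]
  have h3 := congrArg (PadicInt.toZModPow (p := 2) 3) h1
  rw [map_mul, map_pow, h2, map_intCast] at h3
  have key : ∀ r : ZMod (2 ^ 3), r ^ 2 ≠ 5 ∧ r ^ 2 ≠ -5 ∧ r ^ 2 ≠ 10 ∧ r ^ 2 ≠ -10 ∧
     r ^ 2 ≠ 257 * 5 ∧ r ^ 2 ≠ -257 * 5 ∧ r ^ 2 ≠ 514 * 5 ∧ r ^ 2 ≠ -514 * 5 := by decide
  obtain ⟨k1, k2, k3, k4, k5, k6, k7, k8⟩ := key (PadicInt.toZModPow 3 R)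
  rcases hε with rfl | rfl | rfl | rfl | rfl | rfl | rfl | rfl
  · exact k1 (by rw [← h3]; push_cast; ring)
  · exact k2 (by rw [← h3]; push_cast; ring)
  · exact k3 (by rw [← h3]; push_cast; ring)
  · exact k4 (by rw [← h3]; push_cast; ring)
  · exact k5 (by rw [← h3]; push_cast; ring)
  · exact k6 (by rw [← h3]; push_cast; ring)
  · exact k7 (by rw [← h3]; push_cast; ring)
  · exact k8 (by rw [← h3]; push_cast; ring)

theorem no_half (r : ℚ_[257]) (h : ‖r‖ * ‖r‖ = (257 : ℝ)⁻¹) : False := by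
  have hr0 : r ≠ 0 := by rintro rfl; norm_num at h
  rw [Padic.norm_eq_zpow_neg_valuation hr0, ← zpow_add₀ (by norm_num)] at h
  have h1 : (257 : ℝ)⁻¹ = (((257 : ℕ) : ℝ)) ^ (-1 : ℤ) := by norm_num
  rw [h1] at h
  have h2 := zpow_right_injective₀ (a := ((257 : ℕ) : ℝ)) (by norm_num) (by norm_num) h
  omega

theorem sep_257 : Sep 257 := by
  obtain ⟨z, hz⟩ := isSquare_of_close (p := 257) 5 5314785 (by
    have h3 : ‖(2 : ℤ_[257]) * 5‖ = 1 := by
      apply norm_one_of_toZMod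
      rw [map_mul, map_ofNat, map_ofNat]; decide
    rw [h3, one_pow, ← norm_lt_of_toZMod, map_sub, map_pow, map_ofNat, map_ofNat]
    decide)
  refine sep_of_root (p := 257) (z : ℚ_[257]) ?_ ⟨1, by norm_num, ?_⟩
  · have h1 := congrArg (PadicInt.Coe.ringHom (p := 257)) hz
    rw [map_pow, map_ofNat] at h1
    exact h1
  intro ε hε r w hw hcon
  have hw5 : ‖(5 : ℚ_[257])‖ ≤ 1 := by
    have := Padic.norm_int_le_one (p := 257) 5
    simpa using this
  have hw1 : ‖w‖ ≤ 1 := by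
    have h1 : w = (w - 5) + 5 := by ring
    rw [h1]
    exact (Padic.nonarchimedean _ _).trans (max_le hw.le hw5)
  have hew : ‖(ε : ℚ_[257]) * w‖ ≤ 1 := by
    rw [norm_mul]
    exact mul_le_one₀ (Padic.norm_int_le_one ε) (norm_nonneg _) hw1
  have hr1 := norm_sq_le r _ hcon hew
  set W : ℤ_[257] := ⟨w, hw1⟩ with hW
  set R : ℤ_[257] := ⟨r, hr1⟩ with hR
  have h1 : (ε : ℤ_[257]) * W = R ^ 2 := by
    apply Subtype.ext
    push_cast
    simpa [hW, hR] using hcon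
  have h2 : PadicInt.toZMod W = 5 := by
    have h3 : PadicInt.toZMod (W - 5) = 0 := by
      rw [norm_lt_of_toZMod]
      have : ‖W - 5‖ = ‖w - 5‖ := by
        rw [← PadicInt.padic_norm_e_of_padicInt]; rfl
      rw [this]; exact hw
    rw [map_sub, map_ofNat, sub_eq_zero] at h3
    exact h3
  have hwn : ‖w‖ = 1 := by
    have : ‖W‖ = 1 := norm_one_of_toZMod W (by rw [h2]; decide)
    rw [← this, ← PadicInt.padic_norm_e_of_padicInt]
  have h3 := congrArg (PadicInt.toZMod (p := 257)) h1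
  rw [map_mul, map_pow, h2, map_intCast] at h3
  have key : ∀ r : ZMod 257, r ^ 2 ≠ 5 ∧ r ^ 2 ≠ -5 ∧ r ^ 2 ≠ 10 ∧ r ^ 2 ≠ -10 := by decide +kernel
  obtain ⟨k1, k2, k3, k4⟩ := key (PadicInt.toZMod R)
  have hodd : ∀ ε : ℤ, ‖(ε : ℚ_[257])‖ = (257 : ℝ)⁻¹ → (ε : ℚ_[257]) * w = r ^ 2 → False := by
    intro ε h4 h5
    apply no_half r
    have h6 := congrArg norm h5
    rw [norm_mul, norm_pow, hwn, h4, mul_one, pow_two] at h6
    exact h6.symm
  have hn257 : ‖((257 : ℤ) : ℚ_[257])‖ = (257 : ℝ)⁻¹ := by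
    have := Padic.norm_p (p := 257)
    exact_mod_cast this
  have hn2 : ‖((2 : ℤ) : ℚ_[257])‖ = 1 := by
    have h5 : ‖(2 : ℤ_[257])‖ = 1 := norm_one_of_toZMod 2 (by rw [map_ofNat]; decide)
    rw [← h5, ← PadicInt.padic_norm_e_of_padicInt]
    congr 1
  have hn514 : ‖((514 : ℤ) : ℚ_[257])‖ = (257 : ℝ)⁻¹ := by
    have h5 : ((514 : ℤ) : ℚ_[257]) = ((2 : ℤ) : ℚ_[257]) * ((257 : ℤ) : ℚ_[257]) := by push_cast; norm_num
    rw [h5, norm_mul, hn257, hn2, one_mul]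
  rcases hε with rfl | rfl | rfl | rfl | rfl | rfl | rfl | rfl
  · exact k1 (by rw [← h3]; push_cast; ring)
  · exact k2 (by rw [← h3]; push_cast; ring)
  · exact k3 (by rw [← h3]; push_cast; ring)
  · exact k4 (by rw [← h3]; push_cast; ring)
  · exact hodd 257 hn257 hcon
  · exact hodd (-257) (by rw [Int.cast_neg, norm_neg]; exact hn257) hcon
  · exact hodd 514 hn514 hcon
  · exact hodd (-514) (by rw [Int.cast_neg, norm_neg]; exact hn514) hcon

/-- The projective plane over `ℚ_p`. -/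
abbrev P2 (p : ℕ) [Fact p.Prime] := Projectivization ℚ_[p] (Fin 3 → ℚ_[p])

/-- The class `[v]` of a nonzero vector. -/
noncomputable def cls (p : ℕ) [Fact p.Prime] (v : {v : Fin 3 → ℚ_[p] // v ≠ 0}) : P2 p := Projectivization.mk ℚ_[p] v.1 v.2

/-- The `p`-adic topology on the projective plane: the quotient topology of `ℚ_p³ ∖ {0}`. -/
noncomputable instance topP2 (p : ℕ) [Fact p.Prime] : TopologicalSpace (P2 p) :=
  TopologicalSpace.coinduced (cls p) inferInstance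

/-- The homogeneous Weierstrass equation of `W` at `[X : Y : Z]` over an extension of `ℚ`. -/
def HomEq (W : WeierstrassCurve ℚ) {K : Type} [Field K] [Algebra ℚ K] (v : Fin 3 → K) : Prop :=
  v 1 ^ 2 * v 2 + algebraMap ℚ K W.a₁ * v 0 * v 1 * v 2 + algebraMap ℚ K W.a₃ * v 1 * v 2 ^ 2
    = v 0 ^ 3 + algebraMap ℚ K W.a₂ * v 0 ^ 2 * v 2 + algebraMap ℚ K W.a₄ * v 0 * v 2 ^ 2
      + algebraMap ℚ K W.a₆ * v 2 ^ 3

/-- `E(ℚ_p)` inside the projective plane over `ℚ_p`. -/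
def padicPoints (W : WeierstrassCurve ℚ) (p : ℕ) [Fact p.Prime] : Set (P2 p) :=
  {P | ∃ v : {v : Fin 3 → ℚ_[p] // v ≠ 0}, cls p v = P ∧ HomEq W v.1}

/-- `E(ℚ)` inside the projective plane over `ℚ_p`. -/
def rationalPoints (W : WeierstrassCurve ℚ) (p : ℕ) [Fact p.Prime] : Set (P2 p) :=
  {P | ∃ w : Fin 3 → ℚ, HomEq W w ∧ ∃ v : {v : Fin 3 → ℚ_[p] // v ≠ 0}, (∀ i, v.1 i = (w i : ℚ_[p])) ∧ cls p v = P}

/-- `S(E)`: the primes `p` for which `E(ℚ)` is dense in `E(ℚ_p)`. -/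
def S (W : WeierstrassCurve ℚ) : Set ℕ :=
  {p | ∃ _ : Fact p.Prime, padicPoints W p ⊆ closure (rationalPoints W p)}

/-- The curve `y² = x³ - 1026x² + x`. -/
def E : WeierstrassCurve ℚ := ⟨0, -1026, 0, 1, 0⟩

theorem not_dense_of_sep {p : ℕ} [Fact p.Prime] (h : Sep p) :
    ¬ (padicPoints E p ⊆ closure (rationalPoints E p)) := by
  obtain ⟨x0, y0, hxy, ε, hε, hsep⟩ := h
  intro hsub
  have hv0 : (![x0, y0, 1] : Fin 3 → ℚ_[p]) ≠ 0 := by
    intro h0
    have := congrFun h0 2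
    simp at this
  have hmem : cls p ⟨![x0, y0, 1], hv0⟩ ∈ padicPoints E p := by
    refine ⟨⟨![x0, y0, 1], hv0⟩, rfl, ?_⟩
    simp [HomEq, E]
    rw [hxy]; ring
  have hcl := hsub hmem
  set U : Set (P2 p) := {P | ∃ v : {v : Fin 3 → ℚ_[p] // v ≠ 0}, cls p v = P ∧
    ‖v.1 0 - x0 * v.1 2‖ < ε * ‖v.1 2‖ ∧ ‖v.1 1 - y0 * v.1 2‖ < ε * ‖v.1 2‖} with hU
  have hscale : ∀ (v w : {v : Fin 3 → ℚ_[p] // v ≠ 0}), cls p v = cls p w →
      (‖v.1 0 - x0 * v.1 2‖ < ε * ‖v.1 2‖ ∧ ‖v.1 1 - y0 * v.1 2‖ < ε * ‖v.1 2‖) →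
      (‖w.1 0 - x0 * w.1 2‖ < ε * ‖w.1 2‖ ∧ ‖w.1 1 - y0 * w.1 2‖ < ε * ‖w.1 2‖) := by
    intro v w hvw hv
    rw [cls, cls, Projectivization.mk_eq_mk_iff] at hvw
    obtain ⟨c, hc⟩ := hvw
    have hci : ∀ i, v.1 i = (c : ℚ_[p]) * w.1 i := by
      intro i; rw [← hc]; rfl
    have hcn : 0 < ‖(c : ℚ_[p])‖ := norm_pos_iff.mpr c.ne_zero
    rw [hci 0, hci 1, hci 2] at hv
    have e1 : (c : ℚ_[p]) * w.1 0 - x0 * ((c : ℚ_[p]) * w.1 2) = c * (w.1 0 - x0 * w.1 2) := by ring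
    have e2 : (c : ℚ_[p]) * w.1 1 - y0 * ((c : ℚ_[p]) * w.1 2) = c * (w.1 1 - y0 * w.1 2) := by ring
    rw [e1, e2, norm_mul, norm_mul, norm_mul] at hv
    obtain ⟨h1, h2⟩ := hv
    constructor
    · have : ‖(c : ℚ_[p])‖ * ‖w.1 0 - x0 * w.1 2‖ < ‖(c : ℚ_[p])‖ * (ε * ‖w.1 2‖) := by linarith
      exact lt_of_mul_lt_mul_left this hcn.le
    · have : ‖(c : ℚ_[p])‖ * ‖w.1 1 - y0 * w.1 2‖ < ‖(c : ℚ_[p])‖ * (ε * ‖w.1 2‖) := by linarith
      exact lt_of_mul_lt_mul_left this hcn.le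
  have hopen : IsOpen U := by
    rw [isOpen_coinduced]
    have : cls p ⁻¹' U = {v | ‖v.1 0 - x0 * v.1 2‖ < ε * ‖v.1 2‖ ∧ ‖v.1 1 - y0 * v.1 2‖ < ε * ‖v.1 2‖} := by
      ext w
      constructor
      · rintro ⟨v, hv, hv2⟩
        exact hscale v w hv hv2
      · intro hw
        exact ⟨w, rfl, hw⟩
    rw [this]
    have c0 : Continuous (fun v : {v : Fin 3 → ℚ_[p] // v ≠ 0} => v.1 0) := (continuous_apply 0).comp continuous_subtype_val
    have c1 : Continuous (fun v : {v : Fin 3 → ℚ_[p] // v ≠ 0} => v.1 1) := (continuous_apply 1).comp continuous_subtype_val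
    have c2 : Continuous (fun v : {v : Fin 3 → ℚ_[p] // v ≠ 0} => v.1 2) := (continuous_apply 2).comp continuous_subtype_val
    apply IsOpen.inter
    · exact isOpen_lt ((c0.sub (continuous_const.mul c2)).norm) (continuous_const.mul c2.norm)
    · exact isOpen_lt ((c1.sub (continuous_const.mul c2)).norm) (continuous_const.mul c2.norm)
  have hPU : cls p ⟨![x0, y0, 1], hv0⟩ ∈ U := by
    refine ⟨_, rfl, ?_, ?_⟩
    · simpa using hε
    · simpa using hε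
  obtain ⟨P, hP1, hP2⟩ := mem_closure_iff.mp hcl U hopen hPU
  obtain ⟨w, hw, v, hvw, rfl⟩ := hP2
  obtain ⟨v', hv', hv''⟩ := hP1
  obtain ⟨h1, h2⟩ := hscale v' v hv' hv''
  rw [hvw 0, hvw 2] at h1
  rw [hvw 1, hvw 2] at h2
  have hw2 : (w 2 : ℚ_[p]) ≠ 0 := by
    intro h0
    rw [h0, norm_zero, mul_zero x0, sub_zero, mul_zero] at h1
    exact absurd h1 (not_lt.mpr (norm_nonneg _))
  have hw2' : w 2 ≠ 0 := by
    intro h0; apply hw2; rw [h0]; simp
  have hn : 0 < ‖(w 2 : ℚ_[p])‖ := norm_pos_iff.mpr hw2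
  apply hsep (w 0 / w 2) (w 1 / w 2)
  · have h3 : w 1 ^ 2 * w 2 = w 0 ^ 3 - 1026 * w 0 ^ 2 * w 2 + w 0 * w 2 ^ 2 := by
      have := hw
      simp [HomEq, E] at this
      linarith
    field_simp
    linear_combination h3
  · have : ((w 0 / w 2 : ℚ) : ℚ_[p]) - x0 = ((w 0 : ℚ_[p]) - x0 * w 2) / (w 2 : ℚ_[p]) := by
      push_cast; field_simp
    rw [this, norm_div, div_lt_iff₀ hn]
    exact h1
  · have : ((w 1 / w 2 : ℚ) : ℚ_[p]) - y0 = ((w 1 : ℚ_[p]) - y0 * w 2) / (w 2 : ℚ_[p]) := by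
      push_cast; field_simp
    rw [this, norm_div, div_lt_iff₀ hn]
    exact h2

/-! ### a rational point of infinite order -/

open WeierstrassCurve in
theorem dbl {x y : ℚ} (h : E.toAffine.Nonsingular x y) (hx : 1 < ‖(x : ℚ_[2])‖) :
    ∃ (x' y' : ℚ) (h' : E.toAffine.Nonsingular x' y'),
      Affine.Point.some x y h + Affine.Point.some x y h = Affine.Point.some x' y' h' ∧
      ‖(x' : ℚ_[2])‖ = 4 * ‖(x : ℚ_[2])‖ := by
  have heq : y ^ 2 = x ^ 3 - 1026 * x ^ 2 + x := by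
    have := (Affine.equation_iff (W := E.toAffine) x y).mp h.1
    simp [E] at this
    linarith
  have hx0 : x ≠ 0 := by rintro rfl; norm_num at hx
  have hX0 : (x : ℚ_[2]) ≠ 0 := by exact_mod_cast hx0
  -- norms
  have n1026 : ‖(1026 : ℚ_[2])‖ ≤ 1 := by
    have := Padic.norm_int_le_one (p := 2) 1026
    simpa using this
  have nq : ‖(x : ℚ_[2]) ^ 2 - 1026 * x + 1‖ = ‖(x : ℚ_[2])‖ ^ 2 := by
    have h1 : ‖(-(1026 * (x : ℚ_[2])) + 1)‖ < ‖(x : ℚ_[2]) ^ 2‖ := by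
      have h2 : ‖(-(1026 * (x : ℚ_[2])) + 1)‖ ≤ ‖(x : ℚ_[2])‖ := by
        refine (Padic.nonarchimedean _ _).trans (max_le ?_ ?_)
        · rw [norm_neg, norm_mul]; nlinarith [norm_nonneg (x : ℚ_[2])]
        · rw [norm_one]; exact hx.le
      rw [norm_pow]
      nlinarith
    have h3 : (x : ℚ_[2]) ^ 2 - 1026 * x + 1 = (x : ℚ_[2]) ^ 2 + (-(1026 * (x : ℚ_[2])) + 1) := by ring
    rw [h3, IsUltrametricDist.norm_add_eq_max_of_norm_ne_norm h1.ne', max_eq_left h1.le, norm_pow]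
  have nm : ‖(x : ℚ_[2]) ^ 2 - 1‖ = ‖(x : ℚ_[2])‖ ^ 2 := by
    have h1 : ‖(-1 : ℚ_[2])‖ < ‖(x : ℚ_[2]) ^ 2‖ := by
      rw [norm_neg, norm_one, norm_pow]; nlinarith
    rw [sub_eq_add_neg, IsUltrametricDist.norm_add_eq_max_of_norm_ne_norm h1.ne', max_eq_left h1.le, norm_pow]
  have ny : ‖(y : ℚ_[2])‖ ^ 2 = ‖(x : ℚ_[2])‖ ^ 3 := by
    have h1 : (y : ℚ_[2]) ^ 2 = (x : ℚ_[2]) * ((x : ℚ_[2]) ^ 2 - 1026 * x + 1) := by
      have := congrArg (fun q : ℚ => (q : ℚ_[2])) heq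
      push_cast at this
      rw [this]; ring
    rw [← norm_pow, h1, norm_mul, nq]; ring
  have hy0 : y ≠ 0 := by
    rintro rfl
    have : 0 < ‖(x : ℚ_[2])‖ ^ 3 := by positivity
    rw [← ny] at this
    simp at this
  have hY0 : (y : ℚ_[2]) ≠ 0 := by exact_mod_cast hy0
  have hneg : y ≠ E.toAffine.negY x y := by
    simp [Affine.negY, E]
    intro h1
    apply hy0
    linarith
  refine ⟨_, _, _, Affine.Point.add_self_of_Y_ne hneg, ?_⟩
  have hX : E.toAffine.addX x x (E.toAffine.slope x x y y) = (x ^ 2 - 1) ^ 2 / (4 * y ^ 2) := by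
    rw [Affine.slope_of_Y_ne rfl hneg]
    simp only [Affine.addX, Affine.negY, E]
    have h2y : y - (-y - 0 * x - 0) = 2 * y := by ring
    rw [h2y]
    field_simp
    linear_combination (16416 - 32 * x) * heq
  rw [hX]
  push_cast
  rw [norm_div, norm_pow, norm_mul, norm_pow, nm, ny]
  have h4 : ‖(4 : ℚ_[2])‖ = 1 / 4 := by
    have h1 : (4 : ℚ_[2]) = ((2 : ℕ) : ℚ_[2]) ^ 2 := by norm_num
    rw [h1, norm_pow, Padic.norm_p]; norm_num
  rw [h4]
  have hxp : 0 < ‖(x : ℚ_[2])‖ := by positivity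
  field_simp

open WeierstrassCurve in
/-- The 2-adic size of the `x`-coordinate. -/
noncomputable def sz : E.toAffine.Point → ℝ
  | .zero => 0
  | .some x _ _ => ‖(x : ℚ_[2])‖

open WeierstrassCurve in
theorem sz_dbl (Q : E.toAffine.Point) (h : 1 < sz Q) : sz (Q + Q) = 4 * sz Q := by
  rcases Q with _ | ⟨x, y, hn⟩
  · simp [sz] at h
    linarith
  · obtain ⟨x', y', h', h1, h2⟩ := dbl hn h
    rw [h1]; exact h2

open WeierstrassCurve in
theorem sz_pow (Q : E.toAffine.Point) (h : 1 < sz Q) (k : ℕ) : sz ((2 ^ k) • Q) = 4 ^ k * sz Q ∧ 1 < sz ((2 ^ k) • Q) := by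
  induction k with
  | zero => simpa using h
  | succ k ih =>
    have h1 : (2 ^ (k + 1)) • Q = (2 ^ k) • Q + (2 ^ k) • Q := by
      rw [pow_succ, mul_two, add_smul]
    rw [h1, sz_dbl _ ih.2, ih.1]
    refine ⟨by ring, ?_⟩
    have h2 : (1 : ℝ) ≤ 4 ^ k := one_le_pow₀ (by norm_num)
    nlinarith

open WeierstrassCurve in
theorem infinite_order (Q : E.toAffine.Point) (h : 1 < sz Q) : addOrderOf Q = 0 := by
  rw [addOrderOf_eq_zero_iff]
  intro hfin
  have h1 : (Set.range (fun k : ℕ => (2 ^ k) • Q)).Finite := by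
    have h2 : Set.range (fun k : ℕ => (2 ^ k) • Q) ⊆ (AddSubmonoid.multiples Q : Set E.toAffine.Point) := by
      rintro _ ⟨k, rfl⟩
      exact (AddSubmonoid.mem_multiples_iff _ _).mpr ⟨2 ^ k, rfl⟩
    exact (finite_multiples.mpr hfin).subset h2
  refine Set.infinite_range_of_injective ?_ h1
  intro k l hkl
  have h3 := (sz_pow Q h k).1
  have h4 := (sz_pow Q h l).1
  simp only at hkl
  rw [hkl, h4] at h3
  have h5 : (4 : ℝ) ^ l = 4 ^ k := mul_right_cancel₀ (by linarith) h3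
  exact (pow_right_injective₀ (by norm_num) (by norm_num) h5).symm

theorem ell : E.IsElliptic := by
  constructor
  have : E.Δ = 16842752 := by
    simp [WeierstrassCurve.Δ, WeierstrassCurve.b₂, WeierstrassCurve.b₄, WeierstrassCurve.b₆, WeierstrassCurve.b₈, E]
    norm_num
  rw [this]
  exact isUnit_iff_ne_zero.mpr (by norm_num)

open WeierstrassCurve in
theorem exists_inf : ∃ Q : E.toAffine.Point, addOrderOf Q = 0 := by
  have := ell
  have heq : E.toAffine.Equation ((499415801799676091521 / 6433634684602039200) ^ 2 : ℚ) (-113463324137154886853669595199422360800692791959444132432687489 / 266298788901107418290875838657693186065550912076288000000 : ℚ) := by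
    rw [Affine.equation_iff]
    simp [E]
    norm_num
  have hns : E.toAffine.Nonsingular ((499415801799676091521 / 6433634684602039200) ^ 2 : ℚ) (-113463324137154886853669595199422360800692791959444132432687489 / 266298788901107418290875838657693186065550912076288000000 : ℚ) :=
    (Affine.equation_iff_nonsingular).mp heq
  refine ⟨Affine.Point.some _ _ hns, infinite_order _ ?_⟩
  simp only [sz]
  push_cast
  rw [norm_pow, norm_div]
  have h1 : ‖(499415801799676091521 : ℚ_[2])‖ = 1 := by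
    have : (499415801799676091521 : ℚ_[2]) = ((499415801799676091521 : ℤ) : ℚ_[2]) := by norm_num
    rw [this, Padic.norm_intCast_eq_one_iff]
    norm_num
  have h2 : ‖(6433634684602039200 : ℚ_[2])‖ < 1 := by
    have : (6433634684602039200 : ℚ_[2]) = ((6433634684602039200 : ℤ) : ℚ_[2]) := by norm_num
    rw [this, Padic.norm_intCast_lt_one_iff]
    norm_num
  have h3 : 0 < ‖(6433634684602039200 : ℚ_[2])‖ := norm_pos_iff.mpr (by norm_num)
  rw [h1]
  have h4 : 1 < 1 / ‖(6433634684602039200 : ℚ_[2])‖ := by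
    rw [lt_div_iff₀ h3]; linarith
  nlinarith

/-- **Negative answer to Q1.**  The elliptic curve `y² = x³ - 1026x² + x` over `ℚ` has a rational
point of infinite order, and `S(E) = ∅`. -/
theorem result : ∃ W : WeierstrassCurve ℚ, W = ⟨0, -1026, 0, 1, 0⟩ ∧ W.IsElliptic ∧
    (∃ Q : W.toAffine.Point, addOrderOf Q = 0) ∧ S W = ∅ := by
  refine ⟨E, rfl, ell, exists_inf, ?_⟩
  rw [Set.eq_empty_iff_forall_notMem]
  rintro p ⟨hp, hsub⟩
  refine not_dense_of_sep ?_ hsub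
  by_cases h2 : p = 2
  · subst h2; exact sep_two
  · by_cases h257 : p = 257
    · subst h257; exact sep_257
    · exact sep_good h2 h257

end Pool.Agent.Results.MP_a1cdeb_nt.NowhereDense
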